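import Pool.Agent.Helper14.W4.H5

set_option autoImplicit false

/-!
# The last terms `Λ^{j+2} K(t)^* / image of B_2 ⊗ Λ^j`: Milnor `K`-theory of `K(t)`
-/

noncomputable section

open Polynomial TensorProduct
open scoped Classical

namespace Helper14.W4.TopAux

open Helper14.Gon

universe u v w

section
variable {K : Type u} [Field K]

/-- `∑_a ee a ∧ w_a` -/
def EM (j : ℕ) : (K →₀ Tx j K) →ₗ[ℚ] Tx (j + 1) (RatFunc K) :=
  Finsupp.lsum ℚ fun a => (wT j (ee a)) ∘ₗ (rT j)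

lemma EM_apply (j : ℕ) (f : K →₀ Tx j K) :
    EM j f = ∑ a ∈ f.support, wT j (ee a) (rT j (f a)) := by
  rw [EM, Finsupp.lsum_apply, Finsupp.sum]; rfl

lemma EM_single (j : ℕ) (a : K) (w : Tx j K) :
    EM j (Finsupp.single a w) = wT j (ee a) (rT j w) := by
  rw [EM, Finsupp.lsum_single]; rfl

variable (K) in
/-- the elements of the form `const + ∑_a ee a ∧ const + dT v` -/
def SM (j : ℕ) : Submodule ℚ (Tx (j + 2) (RatFunc K)) :=
  LinearMap.range (rT (j + 2)) ⊔ LinearMap.range (EM (K := K) (j + 1)) ⊔ LinearMap.range (dT j)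

lemma SM_rT (j : ℕ) (w : Tx (j + 2) K) : rT (j + 2) w ∈ SM K j :=
  Submodule.mem_sup_left (Submodule.mem_sup_left ⟨w, rfl⟩)

lemma SM_ee (j : ℕ) (a : K) (w : Tx (j + 1) K) : wT (j + 1) (ee a) (rT (j + 1) w) ∈ SM K j :=
  Submodule.mem_sup_left (Submodule.mem_sup_right ⟨Finsupp.single a w, EM_single _ a w⟩)

lemma SM_dT (j : ℕ) (v : Cx 2 j (RatFunc K)) : dT j v ∈ SM K j :=
  Submodule.mem_sup_right ⟨v, rfl⟩

lemma lgC (κ : K) : lg (RatFunc.C κ : RatFunc K) = rU (lg κ) := by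
  by_cases hκ : κ = 0
  · subst hκ
    rw [map_zero, lg_zero, lg_zero, map_zero]
  · rw [rU, resU_lg]

/-- the Steinberg relation for `ee b ∧ ee a` -/
lemma SM_ee_ee (j : ℕ) (a b : K) (w : Tx j K) :
    wT (j + 1) (ee b) (wT j (ee a) (rT j w)) ∈ SM K j := by
  by_cases hab : a = b
  · subst hab
    rw [wT_self]; exact zero_mem _
  · have hX := X_sub_ne (K := K)
    have hk : (RatFunc.C (b - a) : RatFunc K) ≠ 0 := C_ne (sub_ne_zero.2 (Ne.symm hab))
    have hk' : (RatFunc.C (a - b) : RatFunc K) ≠ 0 := C_ne (sub_ne_zero.2 hab)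
    have hf : 1 - (RatFunc.X - RatFunc.C a) / RatFunc.C (b - a) =
        (RatFunc.X - RatFunc.C b) / RatFunc.C (a - b) := by
      rw [map_sub] at hk hk' ⊢
      rw [map_sub]
      field_simp
      ring
    have h1 := SM_dT j (PB 2 j (cl 2 (some ((RatFunc.X - RatFunc.C a) / RatFunc.C (b - a))))
      (rT j w))
    rw [dT_PB] at h1
    have e1 : l1P (some ((RatFunc.X - RatFunc.C a) / RatFunc.C (b - a)) : P1 (RatFunc K)) =
        ee b + -rU (lg (a - b)) := by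
      change lg (1 - (RatFunc.X - RatFunc.C a) / RatFunc.C (b - a)) = _
      rw [hf, lg_div (hX b) hk', lgC, sub_eq_add_neg]; rfl
    have e2 : lgP (some ((RatFunc.X - RatFunc.C a) / RatFunc.C (b - a)) : P1 (RatFunc K)) =
        ee a + -rU (lg (b - a)) := by
      rw [lgP_some, lg_div (hX a) hk, lgC, sub_eq_add_neg]; rfl
    rw [e1, e2, wT_add, wT_add, wT_neg, wT_neg] at h1
    simp only [LinearMap.add_apply, LinearMap.neg_apply, map_add, map_neg] at h1
    have h2 := SM_ee j b (wT j (lg (b - a)) w)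
    have h3 := SM_ee j a (wT j (lg (a - b)) w)
    have h4 := SM_rT j (wT (j + 1) (lg (a - b)) (wT j (lg (b - a)) w))
    rw [rT_wT] at h2 h3
    rw [rT_wT, rT_wT] at h4
    rw [wT_wT] at h3
    refine (congrArg (fun z => z ∈ SM K j) ?_).mpr (sub_mem (add_mem h1 h2) (add_mem h3 h4))
    abel

variable (K) in
/-- the elements of `Λ^1` of the form `const + ∑_a ee a ∧ const` -/
def S1 : Submodule ℚ (Tx 1 (RatFunc K)) :=
  LinearMap.range (rT 1) ⊔ LinearMap.range (EM (K := K) 0)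

lemma S1_rT (w : Tx 1 K) : rT 1 w ∈ S1 K := Submodule.mem_sup_left ⟨w, rfl⟩

lemma S1_ee (a : K) (w : Tx 0 K) : wT 0 (ee a) (rT 0 w) ∈ S1 K :=
  Submodule.mem_sup_right ⟨Finsupp.single a w, EM_single _ a w⟩

/-- induction over the group `K(t)^*` -/
lemma gen_ind [IsAlgClosed K] {p : Additive (RatFunc K)ˣ → Prop} (h0 : p 0)
    (hadd : ∀ a b, p a → p b → p (a + b)) (hneg : ∀ a, p a → p (-a))
    (h1 : ∀ κ : Additive Kˣ, p (rU κ)) (h2 : ∀ a : K, p (ee a)) (v : Additive (RatFunc K)ˣ) :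
    p v := by
  have hv : v ∈ AddSubgroup.closure (Set.range (fun κ : K => lg (RatFunc.C κ : RatFunc K)) ∪
      Set.range (ee : K → Additive (RatFunc K)ˣ)) := by rw [gen_top]; trivial
  induction hv using AddSubgroup.closure_induction with
  | mem x hx =>
    rcases hx with ⟨κ, rfl⟩ | ⟨a, rfl⟩
    · change p (lg (RatFunc.C κ))
      rw [lgC]; exact h1 _
    · exact h2 a
  | zero => exact h0
  | add a b _ _ ha hb => exact hadd a b ha hb
  | neg a _ ha => exact hneg a ha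

/-- a subspace stable under constants and the `ee a` is stable under all `v ∧ ·` -/
lemma wT_mem_of [IsAlgClosed K] {j : ℕ} {S : Submodule ℚ (Tx (j + 1) (RatFunc K))}
    {ω : Tx j (RatFunc K)} (h1 : ∀ κ : Additive Kˣ, wT j (rU κ) ω ∈ S)
    (h2 : ∀ a : K, wT j (ee a) ω ∈ S) (v : Additive (RatFunc K)ˣ) : wT j v ω ∈ S := by
  refine gen_ind (p := fun v => wT j v ω ∈ S) ?_ (fun a b ha hb => ?_) (fun a ha => ?_) h1 h2 v
  · rw [wT_zero]; exact zero_mem _
  · rw [wT_add]; exact add_mem ha hb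
  · rw [wT_neg]; exact neg_mem ha

lemma S1_top [IsAlgClosed K] (w : Tx 1 (RatFunc K)) : w ∈ S1 K := by
  induction w using Tx_ind with
  | h0 => exact zero_mem _
  | hadd a b ha hb => exact add_mem ha hb
  | h1 v ω =>
    rw [← rT_sT_zero 0 ω]
    refine wT_mem_of (fun κ => ?_) (fun a => S1_ee a _) v
    rw [← rT_wT]; exact S1_rT _

/-- membership for sums -/
lemma EM_mem {j : ℕ} {M : Type v} [AddCommGroup M] [Module ℚ M]
    {T : Tx (j + 1) (RatFunc K) →ₗ[ℚ] M} {S : Submodule ℚ M}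
    (h : ∀ (a : K) (w : Tx j K), T (wT j (ee a) (rT j w)) ∈ S) (f : K →₀ Tx j K) :
    T (EM j f) ∈ S := by
  rw [EM_apply, map_sum]
  exact Submodule.sum_mem _ fun a _ => h a _

lemma SM_zero [IsAlgClosed K] (w : Tx 2 (RatFunc K)) : w ∈ SM K 0 := by
  induction w using Tx_ind with
  | h0 => exact zero_mem _
  | hadd a b ha hb => exact add_mem ha hb
  | h1 v ω =>
    obtain ⟨x, ⟨w0, rfl⟩, y, ⟨f, rfl⟩, rfl⟩ := Submodule.mem_sup.1 (S1_top ω)
    refine wT_mem_of (fun κ => ?_) (fun b => ?_) v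
    · rw [map_add]
      refine add_mem ?_ (EM_mem (fun a w => ?_) f)
      · rw [← rT_wT]; exact SM_rT 0 _
      · rw [wT_wT, ← rT_wT]; exact neg_mem (SM_ee 0 a _)
    · rw [map_add]
      exact add_mem (SM_ee 0 b _) (EM_mem (fun a w => SM_ee_ee 0 a b w) f)

lemma SM_top [IsAlgClosed K] (j : ℕ) (w : Tx (j + 2) (RatFunc K)) : w ∈ SM K j := by
  induction j with
  | zero => exact SM_zero w
  | succ j ih =>
    induction w using Tx_ind with
    | h0 => exact zero_mem _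
    | hadd a b ha hb => exact add_mem ha hb
    | h1 v ω =>
      obtain ⟨xy, hxy, z, ⟨u, rfl⟩, rfl⟩ := Submodule.mem_sup.1 (ih ω)
      obtain ⟨x, ⟨w0, rfl⟩, y, ⟨f, rfl⟩, rfl⟩ := Submodule.mem_sup.1 hxy
      refine wT_mem_of (fun κ => ?_) (fun b => ?_) v
      · rw [map_add, map_add]
        refine add_mem (add_mem ?_ (EM_mem (fun a w => ?_) f)) ?_
        · rw [← rT_wT]; exact SM_rT (j + 1) _
        · rw [wT_wT, ← rT_wT]; exact neg_mem (SM_ee (j + 1) a _)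
        · rw [← dT_wC]; exact SM_dT (j + 1) _
      · rw [map_add, map_add]
        refine add_mem (add_mem (SM_ee (j + 1) b _) (EM_mem (fun a w => ?_) f)) ?_
        · exact SM_ee_ee (j + 1) a b w
        · rw [← dT_wC]; exact SM_dT (j + 1) _

end

end Helper14.W4.TopAux

namespace Helper14.W4

open Helper14.Gon TopAux

universe u v w

section
variable {K : Type u} [Field K]

/-- surjectivity of the residue presentation of `K^M_{j+2}(K(t)) ⊗ ℚ` -/
theorem surjT [IsAlgClosed K] (j : ℕ) (w : Tx (j + 2) (RatFunc K)) :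
    ∃ (w0 : Tx (j + 2) K) (s : Finset K) (wa : K → Tx (j + 1) K) (v : Cx 2 j (RatFunc K)),
      w = rT (j + 2) w0 + ∑ a ∈ s, wT (j + 1) (ee a) (rT (j + 1) (wa a)) + dT j v := by
  obtain ⟨xy, hxy, z, ⟨u, rfl⟩, rfl⟩ := Submodule.mem_sup.1 (SM_top j w)
  obtain ⟨x, ⟨w0, rfl⟩, y, ⟨f, rfl⟩, rfl⟩ := Submodule.mem_sup.1 hxy
  exact ⟨w0, f.support, f, u, by rw [EM_apply]⟩

end

end Helper14.W4

namespace Helper14.W4.TopAux

/-! ### Injectivity -/

open Helper14.Gon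

universe u v w

section
variable {K : Type u} [Field K]

lemma ctT_zero_fn {F : Type u} [Field F] (j : ℕ) (ω : Tx (j + 1) F) :
    ctT j (0 : Additive Fˣ →+ ℚ) ω = 0 := by
  have h := ctT_add j (0 : Additive Fˣ →+ ℚ) 0 ω
  rw [add_zero] at h
  exact left_eq_add.1 h

lemma ctT_va_rT (j : ℕ) (a : K) (ω : Tx (j + 1) K) : ctT j (va a) (rT (j + 1) ω) = 0 := by
  rw [ctT_rT, va_rU, ctT_zero_fn, map_zero]

/-- the residue at `b` of `ee a ∧ const` -/
lemma ctT_ee (j : ℕ) (a b : K) (ω : Tx (j + 1) K) :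
    ctT (j + 1) (va b) (wT (j + 1) (ee a) (rT (j + 1) ω)) =
      if a = b then rT (j + 1) ω else 0 := by
  rw [ctT_wT, ctT_va_rT, map_zero, sub_zero, va_ee, ite_smul, one_smul, zero_smul]

lemma res_sum (j : ℕ) (w0 : Tx (j + 2) K) (s : Finset K) (wa : K → Tx (j + 1) K) (b : K)
    (hb : b ∈ s) :
    ctT (j + 1) (va b) (rT (j + 2) w0 + ∑ a ∈ s, wT (j + 1) (ee a) (rT (j + 1) (wa a))) =
      rT (j + 1) (wa b) := by
  rw [map_add, ctT_va_rT, zero_add, map_sum, Finset.sum_congr rfl fun a _ => ctT_ee j a b (wa a),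
    Finset.sum_ite_eq', if_pos hb]

lemma sT_sum (j : ℕ) (w0 : Tx (j + 2) K) (s : Finset K) (wa : K → Tx (j + 1) K) (c : K) :
    sT c (j + 2) (rT (j + 2) w0 + ∑ a ∈ s, wT (j + 1) (ee a) (rT (j + 1) (wa a))) =
      w0 + ∑ a ∈ s, wT (j + 1) (lcU c (ee a)) (wa a) := by
  rw [map_add, sT_rT, map_sum]
  congr 1
  refine Finset.sum_congr rfl fun a _ => ?_
  rw [sT_wT, sT_rT]

end

end Helper14.W4.TopAux

namespace Helper14.W4

open Helper14.Gon TopAux

universe u v w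

section
variable {K : Type u} [Field K]

theorem injT_zero (w0 : Tx 2 K) (s : Finset K) (wa : K → Tx 1 K) (v : Cx 2 0 (RatFunc K))
    (h : rT 2 w0 + ∑ a ∈ s, wT 1 (ee a) (rT 1 (wa a)) = dT 0 v) :
    (∃ v0 : Cx 2 0 K, dT 0 v0 = w0) ∧ ∀ a ∈ s, wa a = 0 := by
  have h1 : ∀ b ∈ s, wa b = 0 := by
    intro b hb
    have e1 := res_sum 0 w0 s wa b hb
    rw [h] at e1
    have e2 : ctT 1 (va b) (dT 0 v) = lt 0 (va b) v := rfl
    have e3 := sT_lt b 0 v
    rw [← e2, e1, sT_rT] at e3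
    exact e3
  refine ⟨⟨sC 0 0 0 v, ?_⟩, h1⟩
  have e := sT_sum 0 w0 s wa 0
  rw [h, Finset.sum_eq_zero (fun a ha => by rw [h1 a ha, map_zero]), add_zero, sT_dT] at e
  exact e

theorem injT_succ (j : ℕ) (w0 : Tx (j + 3) K) (s : Finset K) (wa : K → Tx (j + 2) K)
    (v : Cx 2 (j + 1) (RatFunc K))
    (h : rT (j + 3) w0 + ∑ a ∈ s, wT (j + 2) (ee a) (rT (j + 2) (wa a)) = dT (j + 1) v) :
    (∃ v0 : Cx 2 (j + 1) K, dT (j + 1) v0 = w0) ∧
      ∀ a ∈ s, ∃ va' : Cx 2 j K, dT j va' = wa a := by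
  set V : K → Cx 2 j K := fun b => sC b 0 j (ct 2 j (va b) v) with hV
  have h1 : ∀ b ∈ s, dT j (V b) = wa b := by
    intro b hb
    have e1 := res_sum (j + 1) w0 s wa b hb
    rw [h] at e1
    have e2 : lt (j + 1) (va b) v = ctT (j + 2) (va b) (dT (j + 1) v) - dT j (ct 2 j (va b) v) :=
      rfl
    have e3 := sT_lt b (j + 1) v
    rw [e2, e1, map_sub, sT_rT, sT_dT] at e3
    exact (sub_eq_zero.1 e3).symm
  refine ⟨⟨sC 0 0 (j + 1) v - ∑ a ∈ s, wC 2 j (lcU 0 (ee a)) (V a), ?_⟩,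
    fun b hb => ⟨V b, h1 b hb⟩⟩
  have e := sT_sum (j + 1) w0 s wa 0
  rw [h, sT_dT] at e
  rw [map_sub, e, map_sum, add_sub_assoc, ← Finset.sum_sub_distrib, Finset.sum_eq_zero, add_zero]
  intro a ha
  rw [dT_wC, h1 a ha, sub_self]

end

end Helper14.W4
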